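import Pool.Agent.R598.PM.Defs

/-!
# Ramsey's theorem and the canonical Ramsey theorem for pairs in a transitive model of ZF
-/

set_option autoImplicit false

namespace Pool.Agent.L7h68.RC

open Pool.Agent.W868 Pool.Agent.R598.PM
open ZFSet (pair)

/-- `c` is a function from the set of the two-element subsets of `X` to `C`. -/
def IsCol (X C c : ZFSet.{0}) : Prop :=
  (∀ z ∈ c, ∃ a ∈ X, ∃ b ∈ X, a ≠ b ∧ ∃ k ∈ C, z = pair {a, b} k) ∧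
    ∀ a ∈ X, ∀ b ∈ X, a ≠ b → ∃! k, pair {a, b} k ∈ c

/-- In the model `M`, Ramsey's theorem for pairs and `n` colours holds for the set `X`: for every
function `c` from the two-element subsets of `X` to `n = {0, ..., n - 1}` there is an infinite
`Y ⊆ X` such that `c` is constant on the two-element subsets of `Y`. -/
def RT (M : Set ZFSet.{0}) (n : ℕ) (X : ZFSet.{0}) : Prop :=
  ∀ c ∈ M, IsCol X (nat n) c → ∃ Y ∈ M, Y ⊆ X ∧ ¬ FinIn M Y ∧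
    ∃ k, ∀ a ∈ Y, ∀ b ∈ Y, a ≠ b → pair {a, b} k ∈ c

/-- The set `r` is a strict linear order on `Y`. -/
def IsLin (Y r : ZFSet.{0}) : Prop :=
  r ⊆ ZFSet.prod Y Y ∧ (∀ a, pair a a ∉ r) ∧
    (∀ a b c, pair a b ∈ r → pair b c ∈ r → pair a c ∈ r) ∧
    ∀ a ∈ Y, ∀ b ∈ Y, a ≠ b → pair a b ∈ r ∨ pair b a ∈ r

/-- The function `f` has the same value at `{a, b}` and `{a', b'}`. -/
def Same (f a b a' b' : ZFSet.{0}) : Prop := ∃ k, pair {a, b} k ∈ f ∧ pair {a', b'} k ∈ f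

/-- The function `f` is canonical on the set ordered by `r`. -/
def Canonical (f r : ZFSet.{0}) : Prop :=
  (∀ a₁ b₁ a₂ b₂, pair a₁ b₁ ∈ r → pair a₂ b₂ ∈ r → Same f a₁ b₁ a₂ b₂) ∨
  (∀ a₁ b₁ a₂ b₂, pair a₁ b₁ ∈ r → pair a₂ b₂ ∈ r → (Same f a₁ b₁ a₂ b₂ ↔ a₁ = a₂)) ∨
  (∀ a₁ b₁ a₂ b₂, pair a₁ b₁ ∈ r → pair a₂ b₂ ∈ r → (Same f a₁ b₁ a₂ b₂ ↔ b₁ = b₂)) ∨
  (∀ a₁ b₁ a₂ b₂, pair a₁ b₁ ∈ r → pair a₂ b₂ ∈ r →
    (Same f a₁ b₁ a₂ b₂ ↔ a₁ = a₂ ∧ b₁ = b₂))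

/-- In the model `M`, the canonical Ramsey theorem for pairs holds for the set `X`: for every
function `f` from the two-element subsets of `X` to a set `C` there are an infinite `Y ⊆ X` and a
linear order on `Y` such that `f` is canonical on the ordered set `Y`. -/
def CRT (M : Set ZFSet.{0}) (X : ZFSet.{0}) : Prop :=
  ∀ C ∈ M, ∀ f ∈ M, IsCol X C f → ∃ Y ∈ M, Y ⊆ X ∧ ¬ FinIn M Y ∧
    ∃ r ∈ M, IsLin Y r ∧ Canonical f r

end Pool.Agent.L7h68.RC
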