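import Pool.Agent.L7h68.RC.Defs
import Pool.Agent.R598.PM.FS
import Pool.Agent.W868.Tool

/-!
# The set of the atoms of the basic Fraenkel model
-/

set_option autoImplicit false

namespace Pool.Agent.L7h68.RC

open Pool.Agent.W868 Pool.Agent.W868.PName Pool.Agent.R598.SY Pool.Agent.R598.PM
open ZFSet (pair)

theorem mem_nat_iff {x : ZFSet.{0}} {n : ℕ} : x ∈ nat n ↔ ∃ m, m < n ∧ x = nat m := by
  induction n with
  | zero =>
    constructor
    · exact fun h => (ZFSet.notMem_empty _ h).elim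
    · rintro ⟨m, hm, -⟩
      exact (Nat.not_lt_zero _ hm).elim
  | succ n ih =>
    rw [nat, ZFSet.mem_insert_iff, ih]
    constructor
    · rintro (rfl | ⟨m, hm, rfl⟩)
      · exact ⟨n, Nat.lt_succ_self n, rfl⟩
      · exact ⟨m, hm.trans (Nat.lt_succ_self n), rfl⟩
    · rintro ⟨m, hm, rfl⟩
      rcases Nat.lt_succ_iff_lt_or_eq.1 hm with h | rfl
      · exact Or.inr ⟨m, h, rfl⟩
      · exact Or.inl rfl

/-- The basic Fraenkel model. -/
noncomputable def D : PD ℕ := mkPD (β := Unit) (fun _ _ => ()) (fun _ _ _ _ _ _ => rfl)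

theorem of_D : OF D := of_mkPD fun _ => Set.toFinite _

theorem T_D : D.T = FS ℕ := rfl

theorem mem_Φ {H : Subgroup (Equiv.Perm ℕ)} (hH : H ∈ D.Φ) (τ : Equiv.Perm ℕ) : τ ∈ H := by
  obtain ⟨n, rfl⟩ := hH
  exact fun _ => rfl

theorem dfb_compl (E : Finset ℕ) : {i | i ∉ E} ∈ Dfb D := by
  obtain ⟨H, hH⟩ := D.ne
  refine ⟨E, H, hH, fun τ _ _ h i hi hτ => hi ?_⟩
  have h1 := h _ hτ
  rw [← τ.injective h1]
  exact hτ

variable {π : Pkg (Cd ℕ)}

/-- The supports of the colourings. -/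
theorem exists_col {c : ZFSet.{0}} (g : Gd D π) (hc : c ∈ (sys D).Ms π) : ∃ E : Finset ℕ,
    ∀ τ ∈ FS ℕ, (∀ i ∈ E, τ i = i) → ∀ i j n : ℕ,
      pair {π.val (bN i), π.val (bN j)} (nat n) ∈ c →
      pair {π.val (bN (τ i)), π.val (bN (τ j))} (nat n) ∈ c := by
  classical
  obtain ⟨t, ht, rfl, E, H, hH, hE⟩ := exists_supp hc
  refine ⟨E.image Prod.fst, fun τ hτ hfix i j n h => ?_⟩
  have hn : check (nat n) ∈ π.N := π.nat_Z n
  have hn' : π.val (check (nat n)) = nat n := π.hat_nat n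
  have h1 : pairN (bN i) (bN j) ∈ π.N := π.pairN_mem (g.b i) (g.b j)
  have h2 : pairN (bN (τ i)) (bN (τ j)) ∈ π.N := π.pairN_mem (g.b _) (g.b _)
  rw [← hn', ← π.val_pairN (g.b _) (g.b _), ← π.val_opN h1 hn] at h
  rw [← hn', ← π.val_pairN (g.b _) (g.b _), ← π.val_opN h2 hn]
  refine move ht (π.opN_mem h1 hn) (π.opN_mem h2 hn) hE hτ (mem_Φ hH τ)
    (fun a ha => hfix _ (Finset.mem_image_of_mem _ ha)) (fun ρ hρ p => ?_) h
  rw [act_opN ((sys D).top ρ), act_check ((sys D).top ρ), act_pairN ((sys D).top ρ)]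
  exact feq_opN (feq_pairN (act_bN hρ i p) (act_bN hρ j p)) (Feq.refl _ _)

/-- The supports of the relations. -/
theorem exists_rel {r : ZFSet.{0}} (g : Gd D π) (hc : r ∈ (sys D).Ms π) : ∃ E : Finset ℕ,
    ∀ τ ∈ FS ℕ, (∀ i ∈ E, τ i = i) → ∀ i j : ℕ,
      pair (π.val (bN i)) (π.val (bN j)) ∈ r →
      pair (π.val (bN (τ i))) (π.val (bN (τ j))) ∈ r := by
  classical
  obtain ⟨t, ht, rfl, E, H, hH, hE⟩ := exists_supp hc
  refine ⟨E.image Prod.fst, fun τ hτ hfix i j h => ?_⟩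
  rw [← π.val_opN (g.b _) (g.b _)] at h
  rw [← π.val_opN (g.b _) (g.b _)]
  refine move ht (π.opN_mem (g.b _) (g.b _)) (π.opN_mem (g.b _) (g.b _)) hE hτ (mem_Φ hH τ)
    (fun a ha => hfix _ (Finset.mem_image_of_mem _ ha)) (fun ρ hρ p => ?_) h
  rw [act_opN ((sys D).top ρ)]
  exact feq_opN (act_bN hρ i p) (act_bN hρ j p)

/-- Two pairs of distinct points outside of a finite set are conjugate. -/
theorem exists_perm (E : Finset ℕ) {i j i' j' : ℕ} (hi : i ∉ E) (hj : j ∉ E) (hij : i ≠ j)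
    (hi' : i' ∉ E) (hj' : j' ∉ E) (hij' : i' ≠ j') :
    ∃ τ ∈ FS ℕ, (∀ e ∈ E, τ e = e) ∧ τ i = i' ∧ τ j = j' := by
  -- first move `i` to `i'`, then the image of `j` to `j'`
  have h1 : Equiv.swap i i' i = i' := Equiv.swap_apply_left _ _
  have h2 : Equiv.swap i i' j ≠ i' := by
    intro h
    exact hij ((Equiv.swap i i').injective (h.trans h1.symm)).symm
  have hfix : ∀ a b : ℕ, a ∉ E → b ∉ E → ∀ e ∈ E, Equiv.swap a b e = e := by
    intro a b ha hb e he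
    refine Equiv.swap_apply_of_ne_of_ne ?_ ?_
    · rintro rfl
      exact ha he
    · rintro rfl
      exact hb he
  have h3 : Equiv.swap i i' j ∉ E := by
    intro h
    have h4 := hfix i i' hi hi' _ h
    rw [Equiv.swap_apply_self] at h4
    exact hj (h4 ▸ h)
  refine ⟨Equiv.swap (Equiv.swap i i' j) j' * Equiv.swap i i',
    (FS ℕ).mul_mem (swap_mem_FS _ _) (swap_mem_FS _ _), fun e he => ?_, ?_, ?_⟩
  · rw [Equiv.Perm.mul_apply, hfix i i' hi hi' e he, hfix _ _ h3 hj' e he]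
  · rw [Equiv.Perm.mul_apply, h1]
    exact Equiv.swap_apply_of_ne_of_ne h2.symm hij'
  · rw [Equiv.Perm.mul_apply]
    exact Equiv.swap_apply_left _ _

/-- Ramsey's theorem holds for the set of the atoms. -/
theorem rt (g : Gd D π) (hM : IsZF ((sys D).Ms π)) (n : ℕ) :
    RT ((sys D).Ms π) n (ev π Set.univ) := by
  classical
  intro c hc hcol
  obtain ⟨E, hE⟩ := exists_col g hc
  have hinf : {i | i ∉ E}.Infinite := E.finite_toSet.infinite_compl
  obtain ⟨i, hi⟩ := hinf.nonempty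
  obtain ⟨j, hj, hji⟩ := (hinf.sdiff (Set.finite_singleton i)).nonempty
  have hne : π.val (bN i) ≠ π.val (bN j) := fun h => hji (val_bN_inj g h).symm
  obtain ⟨k, hk, -⟩ := hcol.2 _ ((bN_mem_ev g).2 (Set.mem_univ i)) _
    ((bN_mem_ev g).2 (Set.mem_univ j)) hne
  obtain ⟨a, -, b, -, -, k', hk', hz⟩ := hcol.1 _ hk
  obtain ⟨-, rfl⟩ := ZFSet.pair_inj.1 hz
  obtain ⟨m, hm, rfl⟩ := mem_nat_iff.1 hk'
  refine ⟨ev π {i | i ∉ E}, ev_mem g (dfb_compl E), (ev_subset g).2 (Set.subset_univ _), ?_,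
    nat m, ?_⟩
  · rw [finIn_ev g hM]
    exact hinf
  · intro x hx y hy hxy
    obtain ⟨i', hi', rfl⟩ := (mem_ev g).1 hx
    obtain ⟨j', hj', rfl⟩ := (mem_ev g).1 hy
    obtain ⟨τ, hτ, h1, h2, h3⟩ := exists_perm E hi hj (fun h => hji h.symm) hi' hj'
      (fun h => hxy (by rw [h]))
    have h4 := hE τ hτ h1 i j m hk
    rwa [h2, h3] at h4

/-- There is a colouring of the pairs. -/
theorem exists_isCol {M : Set ZFSet.{0}} (hM : IsZF M) {X : ZFSet.{0}} (hX : X ∈ M) :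
    ∃ c ∈ M, IsCol X (nat 1) c := by
  obtain ⟨P, hP, hP'⟩ := hM.exists_pow hX
  have hB := hM.base
  have h : Dfn M M fun w : Fin 2 → ZFSet.{0} => ∃ a ∈ X, ∃ b ∈ X, a ≠ b ∧ w 0 = {a, b} := by
    (repeat' first
      | assumption
      | exact DfnF.proj _
      | exact DfnF.const (by assumption)
      | exact DfnF.const' (by first | assumption | trivial) (by first | assumption | trivial)
      | exact Dfn.prop _
      | apply Dfn.not | apply Dfn.and | apply Dfn.or | apply Dfn.imp | apply Dfn.iff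
      | apply hB.bex | apply hB.ball | apply Dfn.ex | apply Dfn.all
      | apply Dfn.eq | apply Dfn.mem | apply hB.pair' | apply hB.upair')
  obtain ⟨f, hf, hfs, hf'⟩ := hM.rel_mem hP (hM.nat_mem 1)
    (Q := fun x _ => ∃ a ∈ X, ∃ b ∈ X, a ≠ b ∧ x = {a, b}) h
  refine ⟨f, hf, ?_, ?_⟩
  · intro z hz
    obtain ⟨x, hx, k, hk, rfl⟩ := ZFSet.mem_prod.1 (hfs hz)
    obtain ⟨-, -, a, ha, b, hb, hab, rfl⟩ := (hf' _ _).1 hz
    exact ⟨a, ha, b, hb, hab, k, hk, rfl⟩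
  · intro a ha b hb hab
    have h1 : ({a, b} : ZFSet.{0}) ∈ P := by
      refine (hP' _).2 ⟨hM.pairing _ (hM.trans _ hX _ ha) _ (hM.trans _ hX _ hb), fun z hz => ?_⟩
      rcases ZFSet.mem_pair.1 hz with rfl | rfl
      · exact ha
      · exact hb
    refine ⟨nat 0, (hf' _ _).2 ⟨h1, mem_nat_iff.2 ⟨0, Nat.one_pos, rfl⟩, a, ha, b, hb, hab, rfl⟩,
      fun k hk => ?_⟩
    obtain ⟨m, hm, rfl⟩ := mem_nat_iff.1 ((hf' _ _).1 hk).2.1
    rw [Nat.lt_one_iff.1 hm]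

/-- The canonical Ramsey theorem fails for the set of the atoms. -/
theorem not_crt (g : Gd D π) (hM : IsZF ((sys D).Ms π)) :
    ¬ CRT ((sys D).Ms π) (ev π Set.univ) := by
  classical
  intro hcrt
  obtain ⟨c, hc, hcol⟩ := exists_isCol hM (ev_mem g (D := D) dfb_univ)
  obtain ⟨Y, hY, hYX, hYinf, r, hr, ⟨hr1, hr2, hr3, hr4⟩, -⟩ :=
    hcrt _ (hM.nat_mem 1) c hc hcol
  obtain ⟨S, hS, rfl⟩ := exists_dfb g hY hYX
  rw [finIn_ev g hM] at hYinf
  obtain ⟨E, hE⟩ := exists_rel g hr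
  have hSE : (S \ ↑E).Infinite := Set.Infinite.sdiff hYinf E.finite_toSet
  obtain ⟨i, hi⟩ := hSE.nonempty
  obtain ⟨j, hj, hji⟩ := (hSE.sdiff (Set.finite_singleton i)).nonempty
  have hfix : ∀ e ∈ E, Equiv.swap i j e = e := by
    intro e he
    refine Equiv.swap_apply_of_ne_of_ne ?_ ?_
    · rintro rfl
      exact hi.2 he
    · rintro rfl
      exact hj.2 he
  have hne : π.val (bN i) ≠ π.val (bN j) := fun h => hji (val_bN_inj g h).symm
  rcases hr4 _ ((bN_mem_ev g).2 hi.1) _ ((bN_mem_ev g).2 hj.1) hne with h | h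
  · have h1 := hE _ (swap_mem_FS i j) hfix i j h
    rw [Equiv.swap_apply_left, Equiv.swap_apply_right] at h1
    exact hr2 _ (hr3 _ _ _ h h1)
  · have h1 := hE _ (swap_mem_FS i j) hfix j i h
    rw [Equiv.swap_apply_left, Equiv.swap_apply_right] at h1
    exact hr2 _ (hr3 _ _ _ h h1)

/-- The model. -/
theorem main : ∃ M : Set ZFSet.{0}, M.Countable ∧ IsZF M ∧
    ∃ X ∈ M, (∀ n, RT M n X) ∧ ¬ CRT M X := by
  obtain ⟨π, g, hM, hc, -⟩ := exists_model of_D ctb_mkPD ∅ Set.countable_empty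
  exact ⟨(sys D).Ms π, hc, hM, ev π Set.univ, ev_mem g dfb_univ, fun n => rt g hM n,
    not_crt g hM⟩

end Pool.Agent.L7h68.RC
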